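import Mathlib
import Pool.Agent.Hhelper79.CycleLabelBasic

/-!
# Distance labelings of cycles: geometry of the arcs (MP_30c5a0_lc)

A cycle of length `2 m H + a + c` consists of `2 m` blocks of length `H`, with an additional gap of
length `a` after the block `m - 1` and an additional gap of length `c` after the block `2 m - 1`.
The arc `j` is the beginning of the block `j`.
-/

set_option autoImplicit false

namespace Pool.Agent.Hhelper61.CycExp

open Pool.Agent.Hhelper79.CycleLabel (cd cd_comm)

/-- start of the arc `j` -/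
def st (H a c m j : ℕ) : ℕ := j * H + (if m ≤ j then a else 0) + (if 2 * m ≤ j then c else 0)

theorem st_left {H a c m j : ℕ} (hj : j < m) : st H a c m j = j * H := by
  unfold st
  rw [if_neg (by omega), if_neg (by omega)]
  rfl

theorem st_right {H a c m j : ℕ} (hj : m ≤ j) (hj2 : j < 2 * m) : st H a c m j = j * H + a := by
  unfold st
  rw [if_pos hj, if_neg (by omega)]
  rfl

theorem st_top {H a c m : ℕ} : st H a c m (2 * m) = 2 * m * H + a + c := by
  unfold st
  rw [if_pos (by omega), if_pos le_rfl]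

theorem st_zero {H a c m : ℕ} (hm : 0 < m) : st H a c m 0 = 0 := by
  rw [st_left hm, zero_mul]

theorem st_succ_le {H a c m W j : ℕ} (hm : 0 < m) (ha : a ≤ W) (hc : c ≤ W) :
    st H a c m (j + 1) ≤ st H a c m j + (H + W) := by
  unfold st
  rw [Nat.add_mul, Nat.one_mul]
  split_ifs <;> omega

/-- every position below the top is in a block -/
theorem exists_block {f : ℕ → ℕ} (h0 : f 0 = 0) (N u : ℕ) (hu : u < f N) :
    ∃ j < N, f j ≤ u ∧ u < f (j + 1) := by
  induction N with
  | zero => omega
  | succ N ih =>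
    by_cases h : u < f N
    · obtain ⟨j, hj, h1⟩ := ih h
      exact ⟨j, by omega, h1⟩
    · exact ⟨N, by omega, by omega, hu⟩

variable {H a c m W s : ℕ}

/-- positions in one arc -/
theorem cd_same {j x y : ℕ} (hm : 0 < m) (hx : x < H) (hy : y < H) :
    cd (2 * m * H + a + c) (st H a c m j + x) (st H a c m j + y) = (x - y) + (y - x) := by
  obtain ⟨e, rfl⟩ : ∃ e, m = e + 1 := ⟨m - 1, by omega⟩
  have h1 : 2 * (e + 1) * H = 2 * (e * H) + 2 * H := by ring
  unfold cd
  rw [h1]
  generalize st H a c (e + 1) j = P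
  generalize e * H = E
  omega

/-- two arcs of one side -/
theorem cd_side {j k x y : ℕ} (hjk : j < k) (hside : k < m ∨ (m ≤ j ∧ k < 2 * m)) (hx : x < H)
    (hy : y < H) :
    cd (2 * m * H + a + c) (st H a c m j + x) (st H a c m k + y) = (k - j) * H + y - x := by
  obtain ⟨d, rfl⟩ := Nat.exists_eq_add_of_lt hjk
  have hd : d + 1 < m ∨ d + 1 < m := by omega
  obtain ⟨e, rfl⟩ : ∃ e, m = d + 1 + 1 + e := ⟨m - (d + 1 + 1), by omega⟩
  have h0 : j + d + 1 - j = d + 1 := by omega
  have hs : ∃ A, st H a c (d + 1 + 1 + e) j = j * H + A ∧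
      st H a c (d + 1 + 1 + e) (j + d + 1) = (j + d + 1) * H + A := by
    rcases hside with h | h
    · exact ⟨0, st_left (by omega), st_left h⟩
    · exact ⟨a, st_right h.1 (by omega), st_right (by omega) h.2⟩
  obtain ⟨A, hA1, hA2⟩ := hs
  have h1 : 2 * (d + 1 + 1 + e) * H = 2 * (d * H) + 4 * H + 2 * (e * H) := by ring
  have h2 : (j + d + 1) * H = j * H + d * H + H := by ring
  have h3 : (d + 1) * H = d * H + H := by ring
  unfold cd
  rw [hA1, hA2, h0, h1, h2, h3]
  generalize j * H = P
  generalize d * H = D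
  generalize e * H = E
  omega

/-- arcs of different sides, the first gap on the short way -/
theorem cd_gapA {j Y x y : ℕ} (hj : j < m) (hY : Y < j) (ha : a ≤ W) (hs : s + W ≤ H) (hx : x < s)
    (hy : y < s) :
    cd (2 * m * H + a + c) (st H a c m j + x) (st H a c m (m + Y) + y) =
      (m + Y - j) * H + a + y - x := by
  obtain ⟨d, rfl⟩ := Nat.exists_eq_add_of_lt hY
  obtain ⟨e, rfl⟩ := Nat.exists_eq_add_of_lt hj
  rw [st_left hj, st_right (by omega) (by omega)]
  have h0 : Y + d + 1 + e + 1 + Y - (Y + d + 1) = Y + e + 1 := by omega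
  have h1 : 2 * (Y + d + 1 + e + 1) * H = 2 * (Y * H) + 2 * (d * H) + 2 * (e * H) + 4 * H := by ring
  have h2 : (Y + d + 1) * H = Y * H + d * H + H := by ring
  have h3 : (Y + d + 1 + e + 1 + Y) * H = 2 * (Y * H) + d * H + e * H + 2 * H := by ring
  have h4 : (Y + e + 1) * H = Y * H + e * H + H := by ring
  unfold cd
  rw [h0, h1, h2, h3, h4]
  generalize Y * H = P
  generalize d * H = D
  generalize e * H = E
  omega

/-- arcs of different sides, the second gap on the short way -/
theorem cd_gapB {j Y x y : ℕ} (hY : Y < m) (hjY : j < Y) (hc : c ≤ W) (hs : s + W ≤ H) (hx : x < s)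
    (hy : y < s) :
    cd (2 * m * H + a + c) (st H a c m j + x) (st H a c m (m + Y) + y) =
      (m + j - Y) * H + c + x - y := by
  obtain ⟨d, rfl⟩ := Nat.exists_eq_add_of_lt hjY
  obtain ⟨e, rfl⟩ := Nat.exists_eq_add_of_lt hY
  rw [st_left (by omega), st_right (by omega) (by omega)]
  have h0 : j + d + 1 + e + 1 + j - (j + d + 1) = j + e + 1 := by omega
  have h1 : 2 * (j + d + 1 + e + 1) * H = 2 * (j * H) + 2 * (d * H) + 2 * (e * H) + 4 * H := by ring
  have h3 : (j + d + 1 + e + 1 + (j + d + 1)) * H = 2 * (j * H) + 2 * (d * H) + e * H + 3 * H := by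
    ring
  have h4 : (j + e + 1) * H = j * H + e * H + H := by ring
  unfold cd
  rw [h0, h1, h3, h4]
  generalize j * H = P
  generalize d * H = D
  generalize e * H = E
  omega

end Pool.Agent.Hhelper61.CycExp
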