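import Mathlib

/-!
# Distance labelings of cycles: names of the arcs (MP_30c5a0_lc)

`m = 2 ^ T` arcs on each of the two sides of a cycle.  The data of a cycle are `(α, β, ρ)` with
`α, β : Fin T → ZMod Q × Gd`, where the second components (slopes) are good, and `ρ` a residue
modulo `2 m`.  The arc `x` of the left side is called
`(ρ + x, (α_s + (X_s + 1) α'_s + x)_s, (β_s + X_s β'_s + x)_s)`, the arc `y` of the right side
`(y, (α_s + Y_s α'_s)_s, (β_s + (Y_s + 1) β'_s)_s)`, with `X_s = x / 2 ^ s`, `Y_s = y / 2 ^ s`.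

Two names `(x, y)` of a cycle determine `x, y`, and `(α, ρ)` if `y ≤ x`, and `β` if `x ≤ y`.
(Construction of helper77.)
-/

set_option autoImplicit false

namespace Pool.Agent.Hhelper61.CycExp

/-- binary prefixes: `x < y` iff at some level the prefix of `y` is the next of that of `x` -/
theorem exists_level (T : ℕ) : ∀ x y : ℕ, y < 2 ^ T → x < y → ∃ s < T, y / 2 ^ s = x / 2 ^ s + 1 := by
  induction T with
  | zero => intro x y hy hxy; omega
  | succ T ih =>
    intro x y hy hxy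
    by_cases h : x / 2 < y / 2
    · obtain ⟨s, hs, e⟩ := ih (x / 2) (y / 2) (by rw [pow_succ] at hy; omega) h
      refine ⟨s + 1, by omega, ?_⟩
      rw [pow_succ', ← Nat.div_div_eq_div_mul, ← Nat.div_div_eq_div_mul]
      exact e
    · exact ⟨0, by omega, by simp; omega⟩

/-- good slopes: small nonzero multiples are not small -/
def Gd (T Q : ℕ) : Set (ZMod Q) :=
  {u | ∀ d : ℕ, 1 ≤ d → d ≤ 2 ^ T → ∀ e : ℤ, |e| ≤ 2 ^ T → (d : ZMod Q) * u ≠ e}

/-- half of the data of a cycle -/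
abbrev Half (T Q : ℕ) := Fin T → ZMod Q × Gd T Q

/-- names of arcs -/
abbrev Name (T Q : ℕ) := Bool × ZMod (2 * 2 ^ T) × (Fin T → ZMod Q) × (Fin T → ZMod Q)

variable {T Q : ℕ}

/-- names of the arcs of the left side -/
def nameL (a b : Half T Q) (r : ZMod (2 * 2 ^ T)) (x : ℕ) : Name T Q :=
  (false, r + x, fun s => (a s).1 + ((x / 2 ^ s.val + 1 : ℕ) : ZMod Q) * (a s).2.1 + x,
    fun s => (b s).1 + ((x / 2 ^ s.val : ℕ) : ZMod Q) * (b s).2.1 + x)

/-- names of the arcs of the right side -/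
def nameR (a b : Half T Q) (y : ℕ) : Name T Q :=
  (true, y, fun s => (a s).1 + ((y / 2 ^ s.val : ℕ) : ZMod Q) * (a s).2.1,
    fun s => (b s).1 + ((y / 2 ^ s.val + 1 : ℕ) : ZMod Q) * (b s).2.1)

theorem zmod_inj {N a b : ℕ} (ha : a < N) (hb : b < N) (h : (a : ZMod N) = b) : a = b := by
  rw [ZMod.natCast_eq_natCast_iff] at h
  unfold Nat.ModEq at h
  rwa [Nat.mod_eq_of_lt ha, Nat.mod_eq_of_lt hb] at h

/-- slopes of good elements: a small multiple (of either sign) which is small is trivial -/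
theorem gd_small {u : ZMod Q} (hu : u ∈ Gd T Q) {d e : ℤ} (hd : |d| ≤ 2 ^ T) (he : |e| ≤ 2 ^ T)
    (h : (d : ZMod Q) * u = e) : d = 0 := by
  by_contra hd0
  rcases lt_or_gt_of_ne hd0 with hneg | hpos
  · obtain ⟨n, hn⟩ : ∃ n : ℕ, (n : ℤ) = -d := ⟨(-d).toNat, Int.toNat_of_nonneg (by omega)⟩
    have h1 : 1 ≤ n := by omega
    have h2 : (n : ℤ) ≤ 2 ^ T := by
      rw [abs_of_neg hneg] at hd
      omega
    refine hu n h1 (by exact_mod_cast h2) (-e) (by rwa [abs_neg]) ?_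
    have h3 : (n : ZMod Q) = ((-d : ℤ) : ZMod Q) := by
      rw [← hn]
      push_cast
      rfl
    rw [h3]
    push_cast
    rw [← h]
    ring
  · obtain ⟨n, hn⟩ : ∃ n : ℕ, (n : ℤ) = d := ⟨d.toNat, Int.toNat_of_nonneg (by omega)⟩
    have h1 : 1 ≤ n := by omega
    have h2 : (n : ℤ) ≤ 2 ^ T := by
      rw [abs_of_pos hpos] at hd
      omega
    refine hu n h1 (by exact_mod_cast h2) e he ?_
    have h3 : (n : ZMod Q) = (d : ZMod Q) := by
      rw [← hn]
      push_cast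
      rfl
    rw [h3]
    exact h

theorem div_lt_two {x s : ℕ} (hx : x < 2 ^ T) : x / 2 ^ s < 2 ^ T :=
  lt_of_le_of_lt (Nat.div_le_self _ _) hx

/-- one level: slope computation -/
theorem slope_aux {u w A A' : ZMod Q} (hu : u ∈ Gd T Q) {X X' x x' : ℕ} (hX : X ≤ 2 ^ T)
    (hX' : X' ≤ 2 ^ T) (hx : x < 2 ^ T) (hx' : x' < 2 ^ T) (hQ : 2 * 2 ^ T ≤ Q)
    (h1 : A + (X : ZMod Q) * w + x = A' + (X' : ZMod Q) * u + x')
    (h2 : A + (X : ZMod Q) * w = A' + (X : ZMod Q) * u) : x = x' := by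
  have g3 : (((X' : ℤ) - (X : ℤ) : ℤ) : ZMod Q) * u = (((x : ℤ) - x' : ℤ) : ZMod Q) := by
    push_cast
    linear_combination h2 - h1
  have hM : ((2 ^ T : ℕ) : ℤ) = 2 ^ T := by push_cast; rfl
  have g4 := gd_small hu (by rw [abs_le, ← hM]; constructor <;> omega)
      (by rw [abs_le, ← hM]; constructor <;> omega) g3
  rw [g4, Int.cast_zero, zero_mul] at g3
  apply zmod_inj (N := Q) (by omega) (by omega)
  have g5 : ((x : ZMod Q)) - x' = 0 := by
    have := g3.symm
    push_cast at this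
    exact this
  exact sub_eq_zero.1 g5

/-- the key lemma, first half: names on the two sides determine the arcs -/
theorem name_LR_fst {a b a' b' : Half T Q} {r r' : ZMod (2 * 2 ^ T)} {x x' y y' : ℕ}
    (hQ : 2 * 2 ^ T ≤ Q) (hx : x < 2 ^ T) (hx' : x' < 2 ^ T) (hy : y < 2 ^ T) (hy' : y' < 2 ^ T)
    (e1 : nameL a b r x = nameL a' b' r' x') (e2 : nameR a b y = nameR a' b' y') :
    x = x' ∧ y = y' := by
  simp only [nameL, nameR, Prod.mk.injEq, true_and] at e1 e2
  obtain ⟨e10, e11, e12⟩ := e1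
  obtain ⟨e20, e21, e22⟩ := e2
  have hyy : y = y' := zmod_inj (by omega) (by omega) e20
  subst hyy
  refine ⟨?_, rfl⟩
  have f1 := fun s => congrFun e11 s
  have f2 := fun s => congrFun e12 s
  have f3 := fun s => congrFun e21 s
  have f4 := fun s => congrFun e22 s
  by_cases c1 : x < y
  · obtain ⟨s, hs, e⟩ := exists_level T x y hy c1
    have g1 := f1 ⟨s, hs⟩
    have g2 := f3 ⟨s, hs⟩
    simp only at g1 g2
    rw [e] at g2
    exact slope_aux (a' ⟨s, hs⟩).2.2 (div_lt_two hx) (div_lt_two hx') hx hx' hQ g1 g2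
  by_cases c2 : x' < y
  · obtain ⟨s, hs, e⟩ := exists_level T x' y hy c2
    have g1 := f1 ⟨s, hs⟩
    have g2 := f3 ⟨s, hs⟩
    simp only at g1 g2
    rw [e] at g2
    exact (slope_aux (a ⟨s, hs⟩).2.2 (div_lt_two hx') (div_lt_two hx) hx' hx hQ g1.symm
      g2.symm).symm
  by_cases c3 : y < x
  · obtain ⟨s, hs, e⟩ := exists_level T y x hx c3
    have g1 := f2 ⟨s, hs⟩
    have g2 := f4 ⟨s, hs⟩
    simp only at g1 g2
    rw [← e] at g2
    exact slope_aux (b' ⟨s, hs⟩).2.2 (div_lt_two hx).le (div_lt_two hx').le hx hx' hQ g1 g2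
  by_cases c4 : y < x'
  · obtain ⟨s, hs, e⟩ := exists_level T y x' hx' c4
    have g1 := f2 ⟨s, hs⟩
    have g2 := f4 ⟨s, hs⟩
    simp only at g1 g2
    rw [← e] at g2
    exact (slope_aux (b ⟨s, hs⟩).2.2 (div_lt_two hx').le (div_lt_two hx).le hx' hx hQ g1.symm
      g2.symm).symm
  omega

/-- a small positive number is invertible -/
theorem cast_ne_zero' {d : ℕ} (h1 : 1 ≤ d) (h2 : d < Q) : (d : ZMod Q) ≠ 0 := by
  rw [Ne, ZMod.natCast_eq_zero_iff]
  intro hd
  have := Nat.le_of_dvd (by omega) hd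
  omega

/-- the key lemma, second half: the first half of the data -/
theorem name_LR_a (hQp : Q.Prime) {a b a' b' : Half T Q} {r r' : ZMod (2 * 2 ^ T)} {x y : ℕ}
    (hQ : 2 * 2 ^ T ≤ Q) (hx : x < 2 ^ T) (hy : y < 2 ^ T)
    (e1 : nameL a b r x = nameL a' b' r' x) (e2 : nameR a b y = nameR a' b' y) (hyx : y ≤ x) :
    a = a' ∧ r = r' := by
  have : Fact Q.Prime := ⟨hQp⟩
  simp only [nameL, nameR, Prod.mk.injEq, true_and] at e1 e2
  obtain ⟨e10, e11, e12⟩ := e1
  obtain ⟨e21, e22⟩ := e2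
  refine ⟨?_, add_right_cancel e10⟩
  funext s
  have g1 := congrFun e11 s
  have g2 := congrFun e21 s
  have hle : y / 2 ^ s.val ≤ x / 2 ^ s.val := Nat.div_le_div_right hyx
  have b1 := div_lt_two (s := s.val) hx
  obtain ⟨d, hd⟩ := Nat.exists_eq_add_of_le hle
  have b2 : d < 2 ^ T := lt_of_le_of_lt (by rw [hd]; exact Nat.le_add_left _ _) b1
  rw [hd] at g1
  have hd0 : ((d + 1 : ℕ) : ZMod Q) ≠ 0 := cast_ne_zero' (by omega) (by omega)
  have g3 : ((d + 1 : ℕ) : ZMod Q) * ((a s).2.1 - (a' s).2.1) = 0 := by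
    push_cast
    push_cast at g1 g2
    linear_combination g1 - g2
  have g4 : (a s).2.1 = (a' s).2.1 := by
    rcases mul_eq_zero.1 g3 with h | h
    · exact absurd h hd0
    · exact sub_eq_zero.1 h
  have g5 : (a s).1 = (a' s).1 := by
    rw [g4] at g2
    exact add_right_cancel g2
  exact Prod.ext g5 (Subtype.ext g4)

theorem name_LR_b (hQp : Q.Prime) {a b a' b' : Half T Q} {r r' : ZMod (2 * 2 ^ T)} {x y : ℕ}
    (hQ : 2 * 2 ^ T ≤ Q) (hx : x < 2 ^ T) (hy : y < 2 ^ T)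
    (e1 : nameL a b r x = nameL a' b' r' x) (e2 : nameR a b y = nameR a' b' y) (hyx : x ≤ y) :
    b = b' := by
  have : Fact Q.Prime := ⟨hQp⟩
  simp only [nameL, nameR, Prod.mk.injEq, true_and] at e1 e2
  obtain ⟨e10, e11, e12⟩ := e1
  obtain ⟨e21, e22⟩ := e2
  funext s
  have g1 := congrFun e12 s
  have g2 := congrFun e22 s
  have hle : x / 2 ^ s.val ≤ y / 2 ^ s.val := Nat.div_le_div_right hyx
  have b1 := div_lt_two (s := s.val) hy
  obtain ⟨d, hd⟩ := Nat.exists_eq_add_of_le hle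
  have b2 : d < 2 ^ T := lt_of_le_of_lt (by rw [hd]; exact Nat.le_add_left _ _) b1
  rw [hd] at g2
  have hd0 : ((d + 1 : ℕ) : ZMod Q) ≠ 0 := cast_ne_zero' (by omega) (by omega)
  have g3 : ((d + 1 : ℕ) : ZMod Q) * ((b s).2.1 - (b' s).2.1) = 0 := by
    push_cast
    push_cast at g1 g2
    linear_combination g2 - g1
  have g4 : (b s).2.1 = (b' s).2.1 := by
    rcases mul_eq_zero.1 g3 with h | h
    · exact absurd h hd0
    · exact sub_eq_zero.1 h
  have g5 : (b s).1 = (b' s).1 := by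
    rw [g4] at g1
    exact add_right_cancel (add_right_cancel g1)
  exact Prod.ext g5 (Subtype.ext g4)

/-- names on the left side determine the difference of the arcs -/
theorem name_LL {a b a' b' : Half T Q} {r r' : ZMod (2 * 2 ^ T)} {x x' z z' : ℕ}
    (hx : x < 2 ^ T) (hx' : x' < 2 ^ T) (hz : z < 2 ^ T) (hz' : z' < 2 ^ T)
    (e1 : nameL a b r x = nameL a' b' r' x') (e2 : nameL a b r z = nameL a' b' r' z') :
    x + z' = x' + z := by
  simp only [nameL, Prod.mk.injEq, true_and] at e1 e2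
  have h : ((x + z' : ℕ) : ZMod (2 * 2 ^ T)) = ((x' + z : ℕ) : ZMod (2 * 2 ^ T)) := by
    push_cast
    linear_combination e1.1 - e2.1
  exact zmod_inj (by omega) (by omega) h

theorem name_R {a b a' b' : Half T Q} {y y' : ℕ} (hy : y < 2 ^ T) (hy' : y' < 2 ^ T)
    (e : nameR a b y = nameR a' b' y') : y = y' := by
  simp only [nameR, Prod.mk.injEq, true_and] at e
  exact zmod_inj (by omega) (by omega) e.1

end Pool.Agent.Hhelper61.CycExp
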