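import Mathlib
import Pool.Agent.Hhelper61.CycExp.Names
import Pool.Agent.Hhelper61.CycExp.Geom

/-!
# Distance labelings of cycles: the labeling (MP_30c5a0_lc)
-/

set_option autoImplicit false

namespace Pool.Agent.Hhelper61.CycExp

open Pool.Agent.Hhelper79.CycleLabel (cd cd_comm Good)

theorem exists_enum (α : Type) [Fintype α] [Nonempty α] :
    ∃ f : ℕ → α, ∀ a < Fintype.card α, ∀ b < Fintype.card α, f a = f b → a = b := by
  classical
  let e := Fintype.equivFin α
  refine ⟨fun a => if h : a < Fintype.card α then e.symm ⟨a, h⟩ else Classical.arbitrary α, ?_⟩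
  intro a ha b hb h
  simp only [dif_pos ha, dif_pos hb] at h
  have := e.symm.injective h
  simpa using this

theorem exists_code (α : Type) [Fintype α] :
    ∃ c : α → ℕ, Function.Injective c ∧ ∀ x, c x < Fintype.card α :=
  ⟨fun x => (Fintype.equivFin α x).val, Fin.val_injective.comp (Fintype.equivFin α).injective,
    fun x => Fin.isLt _⟩

/-- the value written in the label -/
def val (p τ c : ℕ) : ZMod p := ((τ % p : ℕ) : ZMod p) + ((τ / p : ℕ) : ZMod p) * (c : ZMod p)

theorem val_inj {p : ℕ} (hp : p.Prime) {τ τ' c d : ℕ} (hτ : τ < p * p) (hτ' : τ' < p * p)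
    (hc : c < p) (hd : d < p) (hcd : c ≠ d) (e1 : val p τ c = val p τ' c)
    (e2 : val p τ d = val p τ' d) : τ = τ' := by
  have : Fact p.Prime := ⟨hp⟩
  unfold val at e1 e2
  have h1 : (((τ / p : ℕ) : ZMod p) - ((τ' / p : ℕ) : ZMod p)) * ((c : ZMod p) - d) = 0 := by
    linear_combination e1 - e2
  have h2 : (c : ZMod p) - d ≠ 0 := sub_ne_zero.2 fun h => hcd (zmod_inj hc hd h)
  have h3 := sub_eq_zero.1 ((mul_eq_zero.1 h1).resolve_right h2)
  have h4 : τ / p = τ' / p :=
    zmod_inj (Nat.div_lt_of_lt_mul hτ) (Nat.div_lt_of_lt_mul hτ') h3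
  rw [h4] at e1
  have h5 := add_right_cancel e1
  have h6 : τ % p = τ' % p := zmod_inj (Nat.mod_lt _ hp.pos) (Nat.mod_lt _ hp.pos) h5
  rw [← Nat.div_add_mod τ p, h4, h6, Nat.div_add_mod]

variable {T Q K : ℕ} {fA : ℕ → Half T Q × ZMod (2 * 2 ^ T)} {fB : ℕ → Half T Q}

/-- the name of the arc `j` of the cycle with data `a, b` -/
def name (fA : ℕ → Half T Q × ZMod (2 * 2 ^ T)) (fB : ℕ → Half T Q) (a b j : ℕ) : Name T Q :=
  if j < 2 ^ T then nameL (fA a).1 (fB b) (fA a).2 j else nameR (fA a).1 (fB b) (j - 2 ^ T)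

/-- the length of the cycle with data `τ, a, b` -/
def len (T K τ a b : ℕ) : ℕ := 2 * 2 ^ T * (K * K * τ) + a + 2 * 2 ^ T * K * b

/-- start of the arc `j` of the cycle with data `τ, a, b` -/
def pos (T K τ a b j : ℕ) : ℕ := st (K * K * τ) a (2 * 2 ^ T * K * b) (2 ^ T) j

theorem name_left {a b j : ℕ} (hj : j < 2 ^ T) :
    name fA fB a b j = nameL (fA a).1 (fB b) (fA a).2 j := if_pos hj

theorem name_right {a b j : ℕ} (hj : 2 ^ T ≤ j) :
    name fA fB a b j = nameR (fA a).1 (fB b) (j - 2 ^ T) := if_neg (by omega)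

theorem name_side {a b j a' b' j' : ℕ} (h : name fA fB a b j = name fA fB a' b' j') :
    j < 2 ^ T ↔ j' < 2 ^ T := by
  constructor
  · intro hj
    by_contra hc
    rw [name_left hj, name_right (by omega)] at h
    simp [nameL, nameR] at h
  · intro hj
    by_contra hc
    rw [name_left hj, name_right (by omega)] at h
    simp [nameL, nameR] at h

theorem name_inj {a b j k : ℕ} (hj : j < 2 * 2 ^ T) (hk : k < 2 * 2 ^ T)
    (h : name fA fB a b j = name fA fB a b k) : j = k := by
  by_cases c : j < 2 ^ T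
  · have c' := (name_side h).1 c
    rw [name_left c, name_left c'] at h
    have := name_LL c c c' c rfl h.symm
    omega
  · have c' : ¬ k < 2 ^ T := fun hc => c ((name_side h).2 hc)
    rw [name_right (by omega), name_right (by omega)] at h
    have := name_R (by omega) (by omega) h
    omega

/-- distances between the two sides -/
theorem dist_LR (hQp : Q.Prime) (hQ : 2 * 2 ^ T ≤ Q)
    (injA : ∀ a < 2 * 2 ^ T * K, ∀ b < 2 * 2 ^ T * K, fA a = fA b → a = b)
    (injB : ∀ a < K, ∀ b < K, fB a = fB b → a = b)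
    {τ a b a' b' j k j' k' x y : ℕ} (ha : a < 2 * 2 ^ T * K) (ha' : a' < 2 * 2 ^ T * K)
    (hb : b < K) (hb' : b' < K)
    (hj : j < 2 ^ T) (hk : 2 ^ T ≤ k) (hk2 : k < 2 * 2 ^ T) (hj' : j' < 2 ^ T) (hk' : 2 ^ T ≤ k')
    (hk2' : k' < 2 * 2 ^ T)
    (hx : x < K * K * τ - 2 * 2 ^ T * K * K) (hy : y < K * K * τ - 2 * 2 ^ T * K * K)
    (n1 : name fA fB a b j = name fA fB a' b' j') (n2 : name fA fB a b k = name fA fB a' b' k') :
    cd (len T K τ a b) (pos T K τ a b j + x) (pos T K τ a b k + y) =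
      cd (len T K τ a' b') (pos T K τ a' b' j' + x) (pos T K τ a' b' k' + y) := by
  rw [name_left hj, name_left hj'] at n1
  rw [name_right hk, name_right hk'] at n2
  obtain ⟨hjj, hkk⟩ := name_LR_fst hQ hj hj' (by omega) (by omega) n1 n2
  subst hjj
  have hkk2 : k = k' := by omega
  subst hkk2
  obtain ⟨Y, rfl⟩ := Nat.exists_eq_add_of_le hk
  have hY : 2 ^ T + Y - 2 ^ T = Y := by omega
  rw [hY] at n2
  have bW : ∀ u < K, 2 * 2 ^ T * K * u ≤ 2 * 2 ^ T * K * K := fun u hu =>
    Nat.mul_le_mul_left _ hu.le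
  have hK : 1 ≤ K := by omega
  have aW : ∀ u < 2 * 2 ^ T * K, u ≤ 2 * 2 ^ T * K * K := fun u hu =>
    hu.le.trans (Nat.le_mul_of_pos_right _ hK)
  have eqa : Y ≤ j → a = a' := by
    intro h
    obtain ⟨h1, h2⟩ := name_LR_a hQp hQ hj (by omega) n1 n2 h
    exact injA a ha a' ha' (Prod.ext h1 h2)
  have eqb : j ≤ Y → b = b' := by
    intro h
    exact injB b hb b' hb' (name_LR_b hQp hQ hj (by omega) n1 n2 h)
  rcases lt_trichotomy Y j with h | h | h
  · have e := eqa h.le
    subst e
    unfold len pos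
    rw [cd_gapA hj h (aW a ha) (s := K * K * τ - 2 * 2 ^ T * K * K) (by omega) hx hy,
      cd_gapA hj h (aW a ha) (s := K * K * τ - 2 * 2 ^ T * K * K) (by omega) hx hy]
  · have e1 := eqa h.le
    have e2 := eqb h.ge
    subst e1
    subst e2
    rfl
  · have e := eqb h.le
    subst e
    unfold len pos
    rw [cd_gapB (by omega) h (bW b hb) (s := K * K * τ - 2 * 2 ^ T * K * K) (by omega) hx hy,
      cd_gapB (by omega) h (bW b hb) (s := K * K * τ - 2 * 2 ^ T * K * K) (by omega) hx hy]

theorem dist_eq (hQp : Q.Prime) (hQ : 2 * 2 ^ T ≤ Q)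
    (injA : ∀ a < 2 * 2 ^ T * K, ∀ b < 2 * 2 ^ T * K, fA a = fA b → a = b)
    (injB : ∀ a < K, ∀ b < K, fB a = fB b → a = b)
    {τ a b τ' a' b' j k j' k' x y : ℕ} (ha : a < 2 * 2 ^ T * K) (ha' : a' < 2 * 2 ^ T * K)
    (hb : b < K) (hb' : b' < K)
    (hj : j < 2 * 2 ^ T) (hk : k < 2 * 2 ^ T) (hj' : j' < 2 * 2 ^ T) (hk' : k' < 2 * 2 ^ T)
    (hx : x < K * K * τ - 2 * 2 ^ T * K * K) (hy : y < K * K * τ - 2 * 2 ^ T * K * K)
    (hx' : x < K * K * τ' - 2 * 2 ^ T * K * K) (hy' : y < K * K * τ' - 2 * 2 ^ T * K * K)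
    (n1 : name fA fB a b j = name fA fB a' b' j') (n2 : name fA fB a b k = name fA fB a' b' k')
    (hτ : name fA fB a b j ≠ name fA fB a b k → τ = τ') :
    cd (len T K τ a b) (pos T K τ a b j + x) (pos T K τ a b k + y) =
      cd (len T K τ' a' b') (pos T K τ' a' b' j' + x) (pos T K τ' a' b' k' + y) := by
  have hm : 0 < 2 ^ T := by positivity
  have s1 := name_side n1
  have s2 := name_side n2
  by_cases hjk : j = k
  · subst hjk
    have : j' = k' := name_inj hj' hk' (n1.symm.trans n2)
    subst this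
    unfold len pos
    rw [cd_same hm (by omega) (by omega), cd_same hm (by omega) (by omega)]
  have hne : name fA fB a b j ≠ name fA fB a b k := fun h => hjk (name_inj hj hk h)
  have e := hτ hne
  subst e
  by_cases c1 : j < 2 ^ T
  · have c1' := s1.1 c1
    by_cases c2 : k < 2 ^ T
    · have c2' := s2.1 c2
      rw [name_left c1, name_left c1'] at n1
      rw [name_left c2, name_left c2'] at n2
      have h := name_LL c1 c1' c2 c2' n1 n2
      unfold len pos
      rcases Nat.lt_or_gt_of_ne hjk with h1 | h1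
      · rw [cd_side h1 (Or.inl c2) (by omega) (by omega),
          cd_side (show j' < k' by omega) (Or.inl c2') (by omega) (by omega)]
        have : k - j = k' - j' := by omega
        rw [this]
      · rw [cd_comm, cd_side h1 (Or.inl c1) (by omega) (by omega), cd_comm,
          cd_side (show k' < j' by omega) (Or.inl c1') (by omega) (by omega)]
        have : j - k = j' - k' := by omega
        rw [this]
    · have c2' : ¬ k' < 2 ^ T := fun h => c2 (s2.2 h)
      exact dist_LR hQp hQ injA injB ha ha' hb hb' c1 (by omega) hk c1' (by omega) hk' hx hy n1 n2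
  · have c1' : ¬ j' < 2 ^ T := fun h => c1 (s1.2 h)
    by_cases c2 : k < 2 ^ T
    · have c2' := s2.1 c2
      rw [cd_comm, cd_comm (len T K τ a' b')]
      exact dist_LR hQp hQ injA injB ha ha' hb hb' c2 (by omega) hj c2' (by omega) hj' hy hx n2 n1
    · have c2' : ¬ k' < 2 ^ T := fun h => c2 (s2.2 h)
      rw [name_right (by omega), name_right (by omega)] at n1 n2
      have h1 := name_R (by omega) (by omega) n1
      have h2 := name_R (by omega) (by omega) n2
      have e1 : j' = j := by omega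
      have e2 : k' = k := by omega
      subst e1
      subst e2
      unfold len pos
      rcases Nat.lt_or_gt_of_ne hjk with h3 | h3
      · rw [cd_side h3 (Or.inr ⟨by omega, by omega⟩) (by omega) (by omega),
          cd_side h3 (Or.inr ⟨by omega, by omega⟩) (by omega) (by omega)]
      · rw [cd_comm, cd_side h3 (Or.inr ⟨by omega, by omega⟩) (by omega) (by omega), cd_comm,
          cd_side h3 (Or.inr ⟨by omega, by omega⟩) (by omega) (by omega)]

end Pool.Agent.Hhelper61.CycExp
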