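import Mathlib
import Pool.Agent.Hhelper61.CycExp.Scheme

/-!
# Distance labelings of cycles: the number of labels of the scheme (MP_30c5a0_lc)
-/

set_option autoImplicit false

namespace Pool.Agent.Hhelper61.CycExp

open Pool.Agent.Hhelper79.CycleLabel (cd cd_comm Good)

variable {T Q K : ℕ}

theorem pos_zero {τ a b : ℕ} : pos T K τ a b 0 = 0 := st_zero (by positivity)

theorem pos_top {τ a b : ℕ} : pos T K τ a b (2 * 2 ^ T) = len T K τ a b := st_top

theorem pos_succ_le {τ a b j : ℕ} (ha : a < 2 * 2 ^ T * K) (hb : b < K) :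
    pos T K τ a b (j + 1) ≤ pos T K τ a b j + (K * K * τ + 2 * 2 ^ T * K * K) := by
  have hK : 1 ≤ K := by omega
  exact st_succ_le (by positivity) (ha.le.trans (Nat.le_mul_of_pos_right _ hK))
    (Nat.mul_le_mul_left _ hb.le)

theorem len_eq (L : ℕ) :
    len T K (L / (2 * 2 ^ T * K * K)) (L % (2 * 2 ^ T * K * K) % (2 * 2 ^ T * K))
      (L % (2 * 2 ^ T * K * K) / (2 * 2 ^ T * K)) = L := by
  unfold len
  have h1 := Nat.div_add_mod L (2 * 2 ^ T * K * K)
  have h2 := Nat.div_add_mod (L % (2 * 2 ^ T * K * K)) (2 * 2 ^ T * K)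
  have h3 : 2 * 2 ^ T * (K * K * (L / (2 * 2 ^ T * K * K))) =
      2 * 2 ^ T * K * K * (L / (2 * 2 ^ T * K * K)) := by ring
  rw [h3]
  omega

/-- the labeling -/
theorem good_scheme (hQp : Q.Prime) (hQ : 2 * 2 ^ T ≤ Q) {p : ℕ} (hp : p.Prime) (hK0 : 0 < K)
    (fA : ℕ → Half T Q × ZMod (2 * 2 ^ T)) (fB : ℕ → Half T Q)
    (injA : ∀ a < 2 * 2 ^ T * K, ∀ b < 2 * 2 ^ T * K, fA a = fA b → a = b)
    (injB : ∀ a < K, ∀ b < K, fB a = fB b → a = b)
    (hN : 2 * (2 * 2 ^ T * (Q ^ T * Q ^ T)) ≤ p) {n : ℕ} (hn : n / (2 * 2 ^ T * K * K) < p * p) :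
    Good {i | i < n + 1} (2 * (2 * 2 ^ T * (Q ^ T * Q ^ T)) * (p * (n / (2 * 2 ^ T))) +
      (n + 1) * (2 * 2 ^ T * (2 * (2 * 2 ^ T * K * K)))) := by
  classical
  have : NeZero Q := ⟨hQp.pos.ne'⟩
  have : NeZero p := ⟨hp.pos.ne'⟩
  have hm : 0 < 2 ^ T := by positivity
  have : NeZero (2 * 2 ^ T) := ⟨by omega⟩
  have cardN : Fintype.card (Name T Q) = 2 * (2 * 2 ^ T * (Q ^ T * Q ^ T)) := by
    simp [Name, ZMod.card]
  obtain ⟨code, hc1, hc2⟩ := exists_code (Name T Q)
  rw [cardN] at hc2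
  -- abbreviations
  let W := 2 * 2 ^ T * K * K
  have hW : 0 < W := by positivity
  have hWd : W = 2 * 2 ^ T * K * K := rfl
  let tt : ℕ → ℕ := fun L => L / W
  let aa : ℕ → ℕ := fun L => L % W % (2 * 2 ^ T * K)
  let bb : ℕ → ℕ := fun L => L % W / (2 * 2 ^ T * K)
  have haa : ∀ L, aa L < 2 * 2 ^ T * K := fun L => Nat.mod_lt _ (by positivity)
  have hbb : ∀ L, bb L < K := fun L => Nat.div_lt_of_lt_mul (Nat.mod_lt _ hW)
  have hlen : ∀ L, len T K (tt L) (aa L) (bb L) = L := fun L => len_eq L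
  let B : ℕ → ℕ → ℕ := fun L j => pos T K (tt L) (aa L) (bb L) j
  let s0 : ℕ → ℕ := fun L => K * K * tt L - W
  have hex : ∀ L u, u < L → ∃ j < 2 * 2 ^ T, B L j ≤ u ∧ u < B L (j + 1) := by
    intro L u hu
    refine exists_block (f := B L) pos_zero (2 * 2 ^ T) u ?_
    change u < pos T K (tt L) (aa L) (bb L) (2 * 2 ^ T)
    rw [pos_top, hlen]
    exact hu
  let jj : ℕ → ℕ → ℕ := fun L u =>
    if h : ∃ j < 2 * 2 ^ T, B L j ≤ u ∧ u < B L (j + 1) then h.choose else 0
  have hjj : ∀ L u, u < L → jj L u < 2 * 2 ^ T ∧ B L (jj L u) ≤ u ∧ u < B L (jj L u + 1) := by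
    intro L u hu
    have h := hex L u hu
    change (if h : ∃ j < 2 * 2 ^ T, B L j ≤ u ∧ u < B L (j + 1) then h.choose else 0) < _ ∧ _
    have : jj L u = h.choose := dif_pos h
    rw [show (if h : ∃ j < 2 * 2 ^ T, B L j ≤ u ∧ u < B L (j + 1) then h.choose else 0) =
      h.choose from dif_pos h, this]
    exact h.choose_spec
  let nm : ℕ → ℕ → Name T Q := fun L j => name fA fB (aa L) (bb L) j
  let φ : ℕ → ℕ → (Name T Q × ZMod p × ℕ) ⊕ (ℕ × ℕ × ℕ) := fun L u =>
    if u - B L (jj L u) < s0 L then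
      Sum.inl (nm L (jj L u), val p (tt L) (code (nm L (jj L u))), u - B L (jj L u))
    else Sum.inr (L, jj L u, u - B L (jj L u) - s0 L)
  have hφ1 : ∀ L u, u - B L (jj L u) < s0 L → φ L u =
      Sum.inl (nm L (jj L u), val p (tt L) (code (nm L (jj L u))), u - B L (jj L u)) :=
    fun L u h => if_pos h
  have hφ2 : ∀ L u, ¬ u - B L (jj L u) < s0 L → φ L u =
      Sum.inr (L, jj L u, u - B L (jj L u) - s0 L) := fun L u h => if_neg h
  -- labels within a cycle are distinct
  have hinj : ∀ L u v, u < L → v < L → φ L u = φ L v → u = v := by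
    intro L u v hu hv h
    obtain ⟨u1, u2, u3⟩ := hjj L u hu
    obtain ⟨v1, v2, v3⟩ := hjj L v hv
    by_cases c : u - B L (jj L u) < s0 L <;> by_cases d : v - B L (jj L v) < s0 L
    · rw [hφ1 L u c, hφ1 L v d] at h
      simp only [Sum.inl.injEq, Prod.mk.injEq] at h
      have hj := name_inj u1 v1 h.1
      have h3 := h.2.2
      rw [hj] at h3 u2
      omega
    · rw [hφ1 L u c, hφ2 L v d] at h
      simp at h
    · rw [hφ2 L u c, hφ1 L v d] at h
      simp at h
    · rw [hφ2 L u c, hφ2 L v d] at h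
      simp only [Sum.inr.injEq, Prod.mk.injEq, true_and] at h
      have hj := h.1
      have h3 := h.2
      rw [hj] at h3 u2 c
      omega
  -- private labels
  have hpriv : ∀ L L' u u' v v', u < L → u' < L' → v < L → v' < L' →
      ¬ u - B L (jj L u) < s0 L → φ L u = φ L' u' → φ L v = φ L' v' →
      cd L u v = cd L' u' v' := by
    intro L L' u u' v v' hu hu' hv hv' c h1 h2
    rw [hφ2 L u c] at h1
    by_cases c' : u' - B L' (jj L' u') < s0 L'
    · rw [hφ1 L' u' c'] at h1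
      simp at h1
    · rw [hφ2 L' u' c'] at h1
      simp only [Sum.inr.injEq, Prod.mk.injEq] at h1
      obtain ⟨h3, h4, h5⟩ := h1
      subst h3
      have e1 : u = u' := hinj L u u' hu hu' (by rw [hφ2 L u c, hφ2 L u' c', h5, h4])
      have e2 : v = v' := hinj L v v' hv hv' h2
      rw [e1, e2]
  refine ⟨(Name T Q × ZMod p × ℕ) ⊕ (ℕ × ℕ × ℕ),
    ((Finset.univ : Finset (Name T Q)) ×ˢ ((Finset.univ : Finset (ZMod p)) ×ˢ
      Finset.range (n / (2 * 2 ^ T)))).disjSum
      (Finset.range (n + 1) ×ˢ (Finset.range (2 * 2 ^ T) ×ˢ Finset.range (2 * W))), φ, ?_, ?_, ?_⟩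
  · rw [Finset.card_disjSum, Finset.card_product, Finset.card_product, Finset.card_product,
      Finset.card_product, Finset.card_univ, Finset.card_univ, cardN, ZMod.card, Finset.card_range,
      Finset.card_range, Finset.card_range, Finset.card_range]
  · intro L hL u hu
    have hL' : L < n + 1 := hL
    obtain ⟨u1, u2, u3⟩ := hjj L u hu
    by_cases c : u - B L (jj L u) < s0 L
    · rw [hφ1 L u c, Finset.inl_mem_disjSum]
      simp only [Finset.mem_product, Finset.mem_univ, true_and, Finset.mem_range]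
      refine lt_of_lt_of_le c ?_
      rw [Nat.le_div_iff_mul_le (by omega)]
      have h1 : len T K (tt L) (aa L) (bb L) = L := hlen L
      unfold len at h1
      have h2 : (K * K * tt L - W) * (2 * 2 ^ T) ≤ 2 * 2 ^ T * (K * K * tt L) := by
        rw [Nat.mul_comm]
        exact Nat.mul_le_mul_left _ (Nat.sub_le _ _)
      change (K * K * tt L - W) * (2 * 2 ^ T) ≤ n
      omega
    · rw [hφ2 L u c, Finset.inr_mem_disjSum]
      simp only [Finset.mem_product, Finset.mem_range]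
      refine ⟨hL', u1, ?_⟩
      have h1 : B L (jj L u + 1) ≤ B L (jj L u) + (K * K * tt L + W) := by
        exact pos_succ_le (haa L) (hbb L)
      change u - B L (jj L u) - (K * K * tt L - W) < 2 * W
      change ¬ u - B L (jj L u) < K * K * tt L - W at c
      omega
  · intro L hL L' hL' u hu v hv u' hu' v' hv' h1 h2
    have hLn : L < n + 1 := hL
    have hLn' : L' < n + 1 := hL'
    obtain ⟨u1, u2, u3⟩ := hjj L u hu
    obtain ⟨v1, v2, v3⟩ := hjj L v hv
    obtain ⟨u1', u2', u3'⟩ := hjj L' u' hu'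
    obtain ⟨v1', v2', v3'⟩ := hjj L' v' hv'
    by_cases c : u - B L (jj L u) < s0 L
    swap
    · exact hpriv L L' u u' v v' hu hu' hv hv' c h1 h2
    by_cases d : v - B L (jj L v) < s0 L
    swap
    · rw [cd_comm, cd_comm L']
      exact hpriv L L' v v' u u' hv hv' hu hu' d h2 h1
    by_cases c' : u' - B L' (jj L' u') < s0 L'
    swap
    · exact (hpriv L' L u' u v' v hu' hu hv' hv c' h1.symm h2.symm).symm
    by_cases d' : v' - B L' (jj L' v') < s0 L'
    swap
    · rw [cd_comm, cd_comm L']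
      exact (hpriv L' L v' v u' u hv' hv hu' hu d' h2.symm h1.symm).symm
    rw [hφ1 L u c, hφ1 L' u' c'] at h1
    rw [hφ1 L v d, hφ1 L' v' d'] at h2
    simp only [Sum.inl.injEq, Prod.mk.injEq] at h1 h2
    obtain ⟨n1, w1, x1⟩ := h1
    obtain ⟨n2, w2, x2⟩ := h2
    have hτ : name fA fB (aa L) (bb L) (jj L u) ≠ name fA fB (aa L) (bb L) (jj L v) →
        tt L = tt L' := by
      intro hne
      have hb : ∀ M, M < n + 1 → tt M < p * p := by
        intro M hM
        exact lt_of_le_of_lt (Nat.div_le_div_right (by omega)) hn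
      refine val_inj hp (hb L hLn) (hb L' hLn') (lt_of_lt_of_le (hc2 _) hN)
        (lt_of_lt_of_le (hc2 _) hN) (fun h => hne (hc1 h)) ?_ ?_
      · rw [← n1] at w1
        exact w1
      · rw [← n2] at w2
        exact w2
    have key := dist_eq (K := K) (fA := fA) (fB := fB) hQp hQ injA injB (haa L) (haa L') (hbb L)
      (hbb L') u1 v1 u1' v1' (x := u - B L (jj L u)) (y := v - B L (jj L v)) (τ := tt L)
      (τ' := tt L') c d (x1 ▸ c') (x2 ▸ d') n1 n2 hτ
    rw [hlen, hlen] at key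
    have e1 : pos T K (tt L) (aa L) (bb L) (jj L u) + (u - B L (jj L u)) = u :=
      Nat.add_sub_cancel' u2
    have e2 : pos T K (tt L) (aa L) (bb L) (jj L v) + (v - B L (jj L v)) = v :=
      Nat.add_sub_cancel' v2
    have e3 : pos T K (tt L') (aa L') (bb L') (jj L' u') + (u - B L (jj L u)) = u' := by
      rw [x1]
      exact Nat.add_sub_cancel' u2'
    have e4 : pos T K (tt L') (aa L') (bb L') (jj L' v') + (v - B L (jj L v)) = v' := by
      rw [x2]
      exact Nat.add_sub_cancel' v2'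
    rw [e1, e2, e3, e4] at key
    exact key

end Pool.Agent.Hhelper61.CycExp
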