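import Mathlib
import Pool.Agent.Hhelper61.CycExp.Good

/-!
# Distance labelings of cycles: most slopes are good (MP_30c5a0_lc)
-/

set_option autoImplicit false

namespace Pool.Agent.Hhelper61.CycExp

open Pool.Agent.Hhelper79.CycleLabel (cd cd_comm Good)

variable {T Q K : ℕ}

/-- most slopes are good -/
theorem card_Gd (hQp : Q.Prime) (hQ : 2 * 2 ^ T ≤ Q) :
    Q ≤ Nat.card (Gd T Q) + 2 ^ T * (2 * 2 ^ T + 1) := by
  classical
  have : Fact Q.Prime := ⟨hQp⟩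
  have : NeZero Q := ⟨hQp.pos.ne'⟩
  let S : Finset (ℕ × ℤ) := Finset.Icc 1 (2 ^ T) ×ˢ Finset.Icc (-((2 ^ T : ℕ) : ℤ)) ((2 ^ T : ℕ) : ℤ)
  let f : ℕ × ℤ → ZMod Q := fun x => (x.2 : ZMod Q) * ((x.1 : ℕ) : ZMod Q)⁻¹
  have hS : S.card = 2 ^ T * (2 * 2 ^ T + 1) := by
    simp only [S, Finset.card_product, Nat.card_Icc, Int.card_Icc]
    congr 1
    omega
  have hcov : (Finset.univ : Finset (ZMod Q)) ⊆ (Gd T Q).toFinset ∪ S.image f := by
    intro u _
    rw [Finset.mem_union]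
    by_cases hu : u ∈ Gd T Q
    · exact Or.inl (by simpa using hu)
    · right
      have : ¬ ∀ d : ℕ, 1 ≤ d → d ≤ 2 ^ T → ∀ e : ℤ, |e| ≤ 2 ^ T → (d : ZMod Q) * u ≠ e := hu
      push Not at this
      obtain ⟨d, hd1, hd2, e, he, h⟩ := this
      rw [Finset.mem_image]
      refine ⟨(d, e), ?_, ?_⟩
      · rw [Finset.mem_product]
        refine ⟨Finset.mem_Icc.2 ⟨hd1, hd2⟩, Finset.mem_Icc.2 ?_⟩
        rw [abs_le] at he
        push_cast
        exact he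
      · have hd0 : (d : ZMod Q) ≠ 0 := cast_ne_zero' hd1 (by
          have : 0 < 2 ^ T := by positivity
          omega)
        change (e : ZMod Q) * ((d : ℕ) : ZMod Q)⁻¹ = u
        rw [← h]
        field_simp
  have h1 := Finset.card_le_card hcov
  rw [Finset.card_univ, ZMod.card] at h1
  have h2 := Finset.card_union_le (Gd T Q).toFinset (S.image f)
  have h3 : (S.image f).card ≤ S.card := Finset.card_image_le
  have h4 : (Gd T Q).toFinset.card = Nat.card (Gd T Q) := by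
    rw [Set.toFinset_card, Nat.card_eq_fintype_card]
  rw [hS] at h3
  omega

/-- enumerations of the data -/
theorem exists_data (hQp : Q.Prime) (hg : 0 < Nat.card (Gd T Q)) :
    ∃ (fA : ℕ → Half T Q × ZMod (2 * 2 ^ T)) (fB : ℕ → Half T Q),
      (∀ a < 2 * 2 ^ T * (Q * Nat.card (Gd T Q)) ^ T, ∀ b < 2 * 2 ^ T * (Q * Nat.card (Gd T Q)) ^ T,
        fA a = fA b → a = b) ∧
      (∀ a < (Q * Nat.card (Gd T Q)) ^ T, ∀ b < (Q * Nat.card (Gd T Q)) ^ T, fB a = fB b → a = b) := by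
  classical
  have : NeZero Q := ⟨hQp.pos.ne'⟩
  have hm : 0 < 2 ^ T := by positivity
  have : NeZero (2 * 2 ^ T) := ⟨by omega⟩
  have : Nonempty (Gd T Q) := (Nat.card_pos_iff.1 hg).1
  have hc : Fintype.card (Half T Q) = (Q * Nat.card (Gd T Q)) ^ T := by
    rw [Fintype.card_fun, Fintype.card_prod, ZMod.card, Fintype.card_fin,
      Nat.card_eq_fintype_card]
  have hc2 : Fintype.card (Half T Q × ZMod (2 * 2 ^ T)) =
      2 * 2 ^ T * (Q * Nat.card (Gd T Q)) ^ T := by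
    rw [Fintype.card_prod, hc, ZMod.card]
    ring
  obtain ⟨fA, hA⟩ := exists_enum (Half T Q × ZMod (2 * 2 ^ T))
  obtain ⟨fB, hB⟩ := exists_enum (Half T Q)
  rw [hc2] at hA
  rw [hc] at hB
  exact ⟨fA, fB, hA, hB⟩

/-- the labeling, with the optimal prime -/
theorem good_Q (hQp : Q.Prime) (hQ : 2 * 2 ^ T ≤ Q) (hg : 0 < Nat.card (Gd T Q)) {p : ℕ}
    (hp : p.Prime) (hK : K = (Q * Nat.card (Gd T Q)) ^ T)
    (hN : 2 * (2 * 2 ^ T * (Q ^ T * Q ^ T)) ≤ p) {n : ℕ} (hn : n / (2 * 2 ^ T * K * K) < p * p) :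
    Good {i | i < n + 1} (2 * (2 * 2 ^ T * (Q ^ T * Q ^ T)) * (p * (n / (2 * 2 ^ T))) +
      (n + 1) * (2 * 2 ^ T * (2 * (2 * 2 ^ T * K * K)))) := by
  obtain ⟨fA, fB, hA, hB⟩ := exists_data hQp hg
  rw [← hK] at hA hB
  have hK0 : 0 < K := by
    rw [hK]
    have := hQp.pos
    positivity
  exact good_scheme hQp hQ hp hK0 fA fB hA hB hN hn

end Pool.Agent.Hhelper61.CycExp
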