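import Mathlib
import Pool.Agent.Hhelper61.CycExp.Slopes

/-!
# Distance labelings of cycles: choice of the parameters (MP_30c5a0_lc)
-/

set_option autoImplicit false

namespace Pool.Agent.Hhelper61.CycExp

open Pool.Agent.Hhelper79.CycleLabel (cd cd_comm Good good_trivial)

/-- Bernoulli -/
theorem bern {T Q g : ℕ} (hT : 1 ≤ T) (hQ : 0 < Q) (hg : Q ≤ g + 2 ^ T * (2 * 2 ^ T + 1))
    (hbig : 8 * T * (2 ^ T * (2 * 2 ^ T + 1)) ≤ Q) :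
    (3 / 4 : ℝ) * (Q : ℝ) ^ (2 * T) ≤ (g : ℝ) ^ (2 * T) := by
  have hT' : (1 : ℝ) ≤ T := by exact_mod_cast hT
  have hQ' : (0 : ℝ) < Q := by exact_mod_cast hQ
  have h1 : (Q : ℝ) ≤ g + 2 ^ T * (2 * 2 ^ T + 1) := by exact_mod_cast hg
  have h2 : (8 : ℝ) * T * (2 ^ T * (2 * 2 ^ T + 1)) ≤ Q := by exact_mod_cast hbig
  have h3 : (Q : ℝ) * (1 + -(1 / (8 * T))) ≤ g := by
    have h4 : (2 : ℝ) ^ T * (2 * 2 ^ T + 1) ≤ Q * (1 / (8 * T)) := by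
      rw [mul_one_div, le_div_iff₀ (by positivity)]
      linarith
    linarith
  have h5 : (1 : ℝ) / (8 * T) ≤ 1 / 8 := by
    apply one_div_le_one_div_of_le (by norm_num)
    linarith
  have h6 := one_add_mul_le_pow (show (-2 : ℝ) ≤ -(1 / (8 * T)) by linarith) (2 * T)
  have h7 : (1 : ℝ) + ((2 * T : ℕ) : ℝ) * (-(1 / (8 * T))) = 3 / 4 := by
    push_cast
    field_simp
    norm_num
  rw [h7] at h6
  calc (3 / 4 : ℝ) * (Q : ℝ) ^ (2 * T) ≤ (1 + -(1 / (8 * (T : ℝ)))) ^ (2 * T) * (Q : ℝ) ^ (2 * T) :=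
        mul_le_mul_of_nonneg_right h6 (by positivity)
    _ = (Q * (1 + -(1 / (8 * (T : ℝ))))) ^ (2 * T) := by rw [mul_pow]; ring
    _ ≤ (g : ℝ) ^ (2 * T) := by
        apply pow_le_pow_left₀ _ h3
        apply mul_nonneg hQ'.le
        linarith

theorem exponent_bound {T Q n : ℕ} (hT : 1 ≤ T)
    (hQ : Q ≤ 16 * T * (2 ^ T * (2 * 2 ^ T + 1))) (hn : 2 ^ (81 * T ^ 2) ≤ n) :
    (2 ^ T) ^ 5 * (Q ^ (2 * T)) ^ 4 ≤ n := by
  have hTm : T ≤ 2 ^ T := Nat.lt_two_pow_self.le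
  have hm : 1 ≤ 2 ^ T := Nat.one_le_two_pow
  have h1 : Q ≤ 2 ^ (3 * T + 6) := by
    calc Q ≤ 16 * T * (2 ^ T * (2 * 2 ^ T + 1)) := hQ
      _ ≤ 16 * 2 ^ T * (2 ^ T * (4 * 2 ^ T)) := by
          gcongr
          omega
      _ = 2 ^ (3 * T + 6) := by
          rw [pow_add, pow_mul']
          ring
  calc (2 ^ T) ^ 5 * (Q ^ (2 * T)) ^ 4 ≤ (2 ^ T) ^ 5 * ((2 ^ (3 * T + 6)) ^ (2 * T)) ^ 4 := by
        gcongr
    _ = 2 ^ (T * 5 + (3 * T + 6) * (2 * T) * 4) := by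
        rw [← pow_mul, ← pow_mul, ← pow_mul, ← pow_add, Nat.mul_assoc (3 * T + 6)]
    _ ≤ 2 ^ (81 * T ^ 2) := by
        apply Nat.pow_le_pow_right (by norm_num)
        nlinarith
    _ ≤ n := hn

/-- the estimate -/
theorem estimate {m q n s p KK M1 : ℝ} (hm : 1 ≤ m) (hq : 1 ≤ q) (hn : 1 ≤ n) (hs : 0 ≤ s)
    (hp : p ≤ 2 * (4 * m * q + s + 1)) (hp0 : 0 ≤ p) (hM1 : M1 ≤ n / (2 * m)) (hM10 : 0 ≤ M1)
    (hsq : s * q ≤ √(n / m))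
    (hKK0 : 0 ≤ KK) (hKK : KK ≤ q ^ 2) (hbig : m ^ 5 * q ^ 4 ≤ n) :
    2 * (2 * m * q) * (p * M1) + (n + 1) * (2 * m * (2 * (2 * m * KK))) ≤
      40 * (n * √n) / √m := by
  have hm0 : 0 < m := by linarith
  have hn0 : 0 < n := by linarith
  have hq0 : 0 < q := by linarith
  have hr0 : 0 ≤ √(n / m) := Real.sqrt_nonneg _
  have h1 : m ^ 2 * q ^ 2 ≤ √(n / m) := by
    apply Real.le_sqrt_of_sq_le
    rw [le_div_iff₀ hm0]
    calc (m ^ 2 * q ^ 2) ^ 2 * m = m ^ 5 * q ^ 4 := by ring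
      _ ≤ n := hbig
  have h2 : 2 * (2 * m * q) * (p * M1) ≤ 2 * (2 * m * q) *
      ((2 * (4 * m * q + s + 1)) * (n / (2 * m))) := by
    apply mul_le_mul_of_nonneg_left _ (by positivity)
    exact mul_le_mul hp hM1 hM10 (by positivity)
  have h3 : 2 * (2 * m * q) * ((2 * (4 * m * q + s + 1)) * (n / (2 * m))) =
      4 * n * (s * q) + n * (16 * m * q ^ 2 + 4 * q) := by
    field_simp
    ring
  have h4 : (n + 1) * (2 * m * (2 * (2 * m * KK))) ≤ (n + n) * (2 * m * (2 * (2 * m * q ^ 2))) := by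
    apply mul_le_mul (by linarith) _ _ (by linarith)
    · gcongr
    · positivity
  have h5 : 4 * n * (s * q) ≤ 4 * n * √(n / m) := mul_le_mul_of_nonneg_left hsq (by linarith)
  have h6 : n * (16 * m * q ^ 2 + 4 * q) + (n + n) * (2 * m * (2 * (2 * m * q ^ 2))) ≤
      36 * (n * (m ^ 2 * q ^ 2)) := by
    have a1 : m * q ^ 2 ≤ m ^ 2 * q ^ 2 := by
      apply mul_le_mul_of_nonneg_right _ (by positivity)
      nlinarith
    have a2 : q ≤ m ^ 2 * q ^ 2 := by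
      calc q = 1 * q := (one_mul q).symm
        _ ≤ m ^ 2 * q ^ 2 := by
          apply mul_le_mul (by nlinarith) (by nlinarith) hq0.le (by positivity)
    have a3 : n * (16 * m * q ^ 2 + 4 * q) ≤ n * (20 * (m ^ 2 * q ^ 2)) := by
      apply mul_le_mul_of_nonneg_left _ hn0.le
      linarith
    nlinarith
  have h7 : 36 * (n * (m ^ 2 * q ^ 2)) ≤ 36 * (n * √(n / m)) := by
    have := mul_le_mul_of_nonneg_left h1 hn0.le
    linarith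
  have h8 : √(n / m) = √n / √m := Real.sqrt_div hn0.le m
  have h9 : 40 * (n * √n) / √m = 40 * n * √(n / m) := by
    rw [h8]
    ring
  rw [h9]
  linarith

/-- the scheme with `2 ^ T` arcs on each side -/
theorem main_T {T n : ℕ} (hT : 1 ≤ T) (hn : 2 ^ (81 * T ^ 2) ≤ n) : ∃ M : ℕ,
    Good {i | i < n + 1} M ∧ (M : ℝ) ≤ 40 * (n * √n) / √((2 : ℝ) ^ T) := by
  have hm1 : 1 ≤ 2 ^ T := Nat.one_le_two_pow
  have hn1 : 1 ≤ n := le_trans Nat.one_le_two_pow hn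
  have hD : 2 * 2 ^ T ≤ 2 ^ T * (2 * 2 ^ T + 1) := by nlinarith
  have hTD : 2 ^ T * (2 * 2 ^ T + 1) ≤ T * (2 ^ T * (2 * 2 ^ T + 1)) :=
    Nat.le_mul_of_pos_left _ hT
  obtain ⟨Q, hQp, hQ1, hQ2⟩ := Nat.exists_prime_lt_and_le_two_mul
    (8 * (T * (2 ^ T * (2 * 2 ^ T + 1)))) (by positivity)
  have hQm : 2 * 2 ^ T ≤ Q := by omega
  have hg := card_Gd hQp hQm
  have hg0 : 0 < Nat.card (Gd T Q) := by omega
  have hgQ : Nat.card (Gd T Q) ≤ Q := by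
    have : NeZero Q := ⟨hQp.pos.ne'⟩
    have h := Nat.card_le_card_of_injective (Subtype.val : Gd T Q → ZMod Q) Subtype.val_injective
    rwa [Nat.card_zmod] at h
  have hb := bern hT hQp.pos hg (by rw [Nat.mul_assoc]; omega)
  have hexp := exponent_bound (Q := Q) hT (by rw [Nat.mul_assoc]; omega) hn
  -- the number of half data
  generalize hgg : Nat.card (Gd T Q) = g at hg hg0 hgQ hb
  obtain ⟨K, hK⟩ : ∃ K, K = (Q * g) ^ T := ⟨_, rfl⟩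
  have hQ0 : 0 < Q := hQp.pos
  have hK0 : 0 < K := by
    rw [hK]
    positivity
  -- the prime
  obtain ⟨p, hp, hp1, hp2⟩ := Nat.exists_prime_lt_and_le_two_mul
    (2 * (2 * 2 ^ T * (Q ^ T * Q ^ T)) + (Nat.sqrt (n / (2 * 2 ^ T * K * K)) + 1)) (by omega)
  have hsq := Nat.lt_succ_sqrt (n / (2 * 2 ^ T * K * K))
  have hnp : n / (2 * 2 ^ T * K * K) < p * p := by
    refine lt_of_lt_of_le hsq (Nat.mul_le_mul ?_ ?_) <;>
    · simp only [Nat.succ_eq_add_one]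
      omega
  have hgood := good_Q (T := T) (Q := Q) (K := K) hQp hQm (by rw [hgg]; exact hg0) hp
    (by rw [hgg]; exact hK) (by omega) hnp
  refine ⟨_, hgood, ?_⟩
  -- real numbers
  have hQr : (1 : ℝ) ≤ Q := by exact_mod_cast hQ0
  have hq1 : (1 : ℝ) ≤ (Q : ℝ) ^ (2 * T) := one_le_pow₀ hQr
  have hqq : ((Q : ℝ) ^ T * (Q : ℝ) ^ T) = (Q : ℝ) ^ (2 * T) := by
    rw [two_mul, pow_add]
  have hKr : (K : ℝ) * K = (Q : ℝ) ^ (2 * T) * (g : ℝ) ^ (2 * T) := by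
    rw [hK]
    push_cast
    rw [mul_pow, two_mul, pow_add, pow_add]
    ring
  have hgQr : (g : ℝ) ^ (2 * T) ≤ (Q : ℝ) ^ (2 * T) :=
    pow_le_pow_left₀ (by positivity) (by exact_mod_cast hgQ) _
  have hKK : (K : ℝ) * K ≤ ((Q : ℝ) ^ (2 * T)) ^ 2 := by
    rw [hKr, sq]
    exact mul_le_mul_of_nonneg_left hgQr (by positivity)
  have hKK' : (3 / 4 : ℝ) * ((Q : ℝ) ^ (2 * T)) ^ 2 ≤ (K : ℝ) * K := by
    rw [hKr]
    calc (3 / 4 : ℝ) * ((Q : ℝ) ^ (2 * T)) ^ 2 =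
        (Q : ℝ) ^ (2 * T) * (3 / 4 * (Q : ℝ) ^ (2 * T)) := by ring
      _ ≤ _ := mul_le_mul_of_nonneg_left hb (by positivity)
  have hn1r : (1 : ℝ) ≤ n := by exact_mod_cast hn1
  have hmr : (1 : ℝ) ≤ (2 : ℝ) ^ T := one_le_pow₀ (by norm_num)
  have hM1 : ((n / (2 * 2 ^ T) : ℕ) : ℝ) ≤ n / (2 * 2 ^ T) := by
    have := @Nat.cast_div_le ℝ _ _ _ n (2 * 2 ^ T)
    push_cast at this
    exact this
  have hs1 : ((Nat.sqrt (n / (2 * 2 ^ T * K * K)) : ℕ) : ℝ) * (Q : ℝ) ^ (2 * T) ≤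
      √((n : ℝ) / 2 ^ T) := by
    apply Real.le_sqrt_of_sq_le
    have e1 : ((Nat.sqrt (n / (2 * 2 ^ T * K * K)) : ℕ) : ℝ) ^ 2 ≤
        ((n / (2 * 2 ^ T * K * K) : ℕ) : ℝ) := by
      exact_mod_cast Nat.sqrt_le' (n / (2 * 2 ^ T * K * K))
    have e2 : ((n / (2 * 2 ^ T * K * K) : ℕ) : ℝ) ≤ n / (2 * 2 ^ T * K * K) := by
      have := @Nat.cast_div_le ℝ _ _ _ n (2 * 2 ^ T * K * K)
      push_cast at this
      exact this
    have hKp : (0 : ℝ) < K := by exact_mod_cast hK0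
    have e3 : (n : ℝ) / (2 * 2 ^ T * K * K) * ((Q : ℝ) ^ (2 * T)) ^ 2 ≤ n / 2 ^ T := by
      rw [div_mul_eq_mul_div, div_le_div_iff₀ (by positivity) (by positivity)]
      have e4 : ((Q : ℝ) ^ (2 * T)) ^ 2 ≤ 2 * (K * K) := by
        have : (0 : ℝ) ≤ ((Q : ℝ) ^ (2 * T)) ^ 2 := by positivity
        linarith
      calc (n : ℝ) * ((Q : ℝ) ^ (2 * T)) ^ 2 * 2 ^ T ≤ n * (2 * (K * K)) * 2 ^ T := by gcongr
        _ = n * (2 * 2 ^ T * K * K) := by ring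
    rw [mul_pow]
    calc ((Nat.sqrt (n / (2 * 2 ^ T * K * K)) : ℕ) : ℝ) ^ 2 * ((Q : ℝ) ^ (2 * T)) ^ 2
        ≤ ((n : ℝ) / (2 * 2 ^ T * K * K)) * ((Q : ℝ) ^ (2 * T)) ^ 2 :=
          mul_le_mul_of_nonneg_right (e1.trans e2) (by positivity)
      _ ≤ _ := e3
  have hpr : (p : ℝ) ≤ 2 * (4 * 2 ^ T * (Q : ℝ) ^ (2 * T) +
      ((Nat.sqrt (n / (2 * 2 ^ T * K * K)) : ℕ) : ℝ) + 1) := by
    have h : (p : ℝ) ≤ 2 * (2 * (2 * 2 ^ T * ((Q : ℝ) ^ T * (Q : ℝ) ^ T)) +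
        (((Nat.sqrt (n / (2 * 2 ^ T * K * K)) : ℕ) : ℝ) + 1)) := by exact_mod_cast hp2
    rw [hqq] at h
    linarith
  have hexpr : ((2 : ℝ) ^ T) ^ 5 * ((Q : ℝ) ^ (2 * T)) ^ 4 ≤ n := by exact_mod_cast hexp
  have hfin := estimate (m := (2 : ℝ) ^ T) (q := (Q : ℝ) ^ (2 * T)) (n := n)
    (s := ((Nat.sqrt (n / (2 * 2 ^ T * K * K)) : ℕ) : ℝ)) (p := p) (KK := K * K)
    (M1 := ((n / (2 * 2 ^ T) : ℕ) : ℝ)) hmr hq1 hn1r (Nat.cast_nonneg _) hpr (Nat.cast_nonneg _)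
    hM1 (Nat.cast_nonneg _) hs1 (by positivity) hKK hexpr
  refine le_trans (le_of_eq ?_) hfin
  push_cast [hqq]
  ring

end Pool.Agent.Hhelper61.CycExp
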